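import Pool.Agent.N699.GL.Inp
import Pool.Agent.N786.E.Levy
import Pool.Agent.N916.ND.Levy

set_option autoImplicit false

/-! The normal law for the sums of the Moebius function at random points. -/

namespace Pool.Agent.N699.GL

open Finset
open Pool.Agent.H373R2.T7
open Pool.Agent.N699.RP
open Pool.Agent.N699.GC
open Pool.Agent.W93.TD (avg_w total_w)

/-- the normalisation -/
noncomputable def nrm (n : ℕ) : ℝ := Real.sqrt (6 / Real.pi ^ 2 * n)

open Classical in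
/-- the odd correlations -/
noncomputable def Q1 (n N K : ℕ) (v : Fin n → ℕ) : ℝ :=
  ∑ k ∈ range (2 * K + 1), (∑ φ : Fin k → Fin n, (if Od φ then |∑ x ∈ Icc 1 N, ∏ j, mu (x + v (φ j))| else 0)) / N

/-- the deviation of the number of the squarefree values -/
noncomputable def Q2 (n N : ℕ) (v : Fin n → ℕ) : ℝ :=
  (∑ x ∈ Icc 1 N, |(∑ i, mu (x + v i) ^ 2) / n - 6 / Real.pi ^ 2|) / N

lemma c_bounds : 1 / 2 ≤ 6 / Real.pi ^ 2 ∧ 6 / Real.pi ^ 2 ≤ 1 ∧ 1 / (6 / Real.pi ^ 2) ^ 2 ≤ 3 := by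
  have h1 := Real.pi_gt_three
  have h2 := Real.pi_lt_d2
  have h3 : 9 ≤ Real.pi ^ 2 := by nlinarith
  have h4 : Real.pi ^ 2 ≤ 9.9225 := by nlinarith
  refine ⟨?_, ?_, ?_⟩
  · rw [div_le_div_iff₀ (by norm_num) (by positivity)]
    linarith
  · rw [div_le_one (by positivity)]
    linarith
  · rw [div_pow, one_div_div, div_le_iff₀ (by norm_num)]
    nlinarith

lemma mu_sq_card {n : ℕ} (v : Fin n → ℕ) (x : ℕ) : ∑ i, mu (x + v i) ^ 2 = (((univ : Finset (Fin n)).filter fun i => mu (x + v i) ≠ 0).card : ℝ) := by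
  have h1 : ∀ i ∈ (univ : Finset (Fin n)), mu (x + v i) ^ 2 = if mu (x + v i) ≠ 0 then 1 else 0 := by
    intro i _
    rcases mu_cases (x + v i) with h | h | h <;> rw [h] <;> norm_num
  rw [sum_congr rfl h1, ← sum_filter, sum_const, nsmul_eq_mul, mul_one]

theorem char_close (n N K : ℕ) (hn : 1 ≤ n) (hN : 1 ≤ N) (v : Fin n → ℕ) (Ξ : ℝ) (hΞ : 1 ≤ Ξ) (hs : Ξ ≤ nrm n) (ξ : ℝ) (hξ : |ξ| ≤ Ξ) :
    ‖avC (Icc 1 N) (fun x => Complex.exp (((ξ / nrm n * ∑ i, mu (x + v i) : ℝ) : ℂ) * Complex.I)) - ((Real.exp (-(ξ ^ 2 / 2)) : ℝ) : ℂ)‖ ≤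
      Q1 n N K v + 4 * (1 / 4) ^ K * Real.exp (Ξ ^ 2 * Real.pi ^ 2 / 3) + 3 * Ξ ^ 4 / n + Ξ ^ 2 * Q2 n N v := by
  classical
  have hN0 : (0 : ℝ) < N := by exact_mod_cast hN
  have hn0 : (0 : ℝ) < n := by exact_mod_cast hn
  obtain ⟨hc1, hc2, hc3⟩ := c_bounds
  have hpi : 0 < Real.pi ^ 2 := by positivity
  obtain ⟨c, hc⟩ : ∃ c : ℝ, c = 6 / Real.pi ^ 2 := ⟨_, rfl⟩
  have hc0 : 0 < c := by rw [hc]; positivity
  obtain ⟨s, hsd⟩ : ∃ s, s = nrm n := ⟨_, rfl⟩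
  rw [← hsd] at hs ⊢
  have hs0 : 0 < s := by linarith
  have hs2 : s ^ 2 = c * n := by
    rw [hsd, hc]
    unfold nrm
    rw [Real.sq_sqrt (by positivity)]
  obtain ⟨y, hy⟩ : ∃ y, y = ξ / s := ⟨_, rfl⟩
  rw [← hy]
  have hyΞ : |y| ≤ Ξ / s := by
    rw [hy, abs_div, abs_of_pos hs0]
    exact div_le_div_of_nonneg_right hξ hs0.le
  have hΞs : Ξ / s ≤ 1 := by rw [div_le_one hs0]; exact hs
  have hy1 : |y| ≤ 1 := hyΞ.trans hΞs
  obtain ⟨m, hm⟩ : ∃ m : ℕ → Fin n → ℝ, m = fun x i => mu (x + v i) := ⟨_, rfl⟩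
  obtain ⟨D, hD⟩ : ∃ D : ℕ → ℝ, D = fun k => (∑ φ : Fin k → Fin n, (if Od φ then |∑ x ∈ Icc 1 N, ∏ j, m x (φ j)| else 0)) / ((Icc 1 N).card : ℝ) := ⟨_, rfl⟩
  have hD0 : ∀ k, 0 ≤ D k := by
    intro k
    rw [hD]
    refine div_nonneg (sum_nonneg fun φ _ => ?_) (Nat.cast_nonneg _)
    by_cases h : Od φ
    · rw [if_pos h]; exact abs_nonneg _
    · rw [if_neg h]
  have hcmp := char_compare (Icc 1 N) (Icc 1 N ×ˢ SS n) (fun x => ∑ i, m x i) (fun q => ∑ i, q.2 i * m q.1 i) K y D (by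
    intro k _
    rw [hD]
    exact mom_diff n k (Icc 1 N) m)
  -- the moment of high order
  have hmom : av (Icc 1 N ×ˢ SS n) (fun q => (∑ i, q.2 i * m q.1 i) ^ (2 * K)) ≤
      ((2 * K).factorial : ℝ) / (2 * Ξ / s) ^ (2 * K) * (2 * Real.exp (Ξ ^ 2 * Real.pi ^ 2 / 3)) := by
    unfold av
    rw [card_product, Nat.cast_mul, SS_card, sum_product, Nat.card_Icc, Nat.add_sub_cancel, div_le_iff₀ (by positivity)]
    have e1 : ∀ x ∈ Icc 1 N, ∑ ε ∈ SS n, (∑ i, ε i * m x i) ^ (2 * K) ≤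
        ((2 * K).factorial : ℝ) / (2 * Ξ / s) ^ (2 * K) * (2 * Real.exp (Ξ ^ 2 * Real.pi ^ 2 / 3)) * 2 ^ n := by
      intro x _
      have e2 := mom_bound n (m x) (fun i => by rw [hm]; exact mu_abs _) K (2 * Ξ / s) (by positivity)
      rw [div_le_iff₀ (by positivity)] at e2
      refine e2.trans (le_of_eq ?_)
      congr 4
      rw [div_pow, hs2, hc]
      field_simp
      norm_num
    refine (sum_le_sum e1).trans (le_of_eq ?_)
    rw [sum_const, nsmul_eq_mul, Nat.card_Icc, Nat.add_sub_cancel]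
    ring
  have hpart1 : ∑ k ∈ range (2 * K), |y| ^ k / (k.factorial : ℝ) * D k +
        |y| ^ (2 * K) / ((2 * K).factorial : ℝ) * (2 * av (Icc 1 N ×ˢ SS n) (fun q => (∑ i, q.2 i * m q.1 i) ^ (2 * K)) + D (2 * K)) ≤
      Q1 n N K v + 4 * (1 / 4) ^ K * Real.exp (Ξ ^ 2 * Real.pi ^ 2 / 3) := by
    have e1 : ∀ k, |y| ^ k / (k.factorial : ℝ) ≤ 1 := by
      intro k
      have : (1 : ℝ) ≤ (k.factorial : ℝ) := by exact_mod_cast Nat.one_le_iff_ne_zero.2 (Nat.factorial_ne_zero k)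
      rw [div_le_one (by linarith)]
      exact (pow_le_one₀ (abs_nonneg _) hy1).trans this
    have e2 : ∑ k ∈ range (2 * K), |y| ^ k / (k.factorial : ℝ) * D k + |y| ^ (2 * K) / ((2 * K).factorial : ℝ) * D (2 * K) ≤ Q1 n N K v := by
      have e3 : Q1 n N K v = ∑ k ∈ range (2 * K), D k + D (2 * K) := by
        unfold Q1
        rw [sum_range_succ, hD, hm]
        simp only [Nat.card_Icc, Nat.add_sub_cancel]
      rw [e3]
      apply add_le_add
      · apply sum_le_sum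
        intro k _
        calc |y| ^ k / (k.factorial : ℝ) * D k ≤ 1 * D k := mul_le_mul_of_nonneg_right (e1 k) (hD0 k)
          _ = _ := one_mul _
      · calc |y| ^ (2 * K) / ((2 * K).factorial : ℝ) * D (2 * K) ≤ 1 * D (2 * K) := mul_le_mul_of_nonneg_right (e1 _) (hD0 _)
          _ = _ := one_mul _
    have e4 : |y| ^ (2 * K) / ((2 * K).factorial : ℝ) * (2 * av (Icc 1 N ×ˢ SS n) (fun q => (∑ i, q.2 i * m q.1 i) ^ (2 * K))) ≤
        4 * (1 / 4) ^ K * Real.exp (Ξ ^ 2 * Real.pi ^ 2 / 3) := by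
      have e5 : 0 ≤ |y| ^ (2 * K) / ((2 * K).factorial : ℝ) := by positivity
      have e6 : |y| ^ (2 * K) ≤ (Ξ / s) ^ (2 * K) := pow_le_pow_left₀ (abs_nonneg _) hyΞ _
      have hf : (0 : ℝ) < ((2 * K).factorial : ℝ) := by exact_mod_cast Nat.factorial_pos _
      calc |y| ^ (2 * K) / ((2 * K).factorial : ℝ) * (2 * av (Icc 1 N ×ˢ SS n) (fun q => (∑ i, q.2 i * m q.1 i) ^ (2 * K))) ≤
            |y| ^ (2 * K) / ((2 * K).factorial : ℝ) * (2 * (((2 * K).factorial : ℝ) / (2 * Ξ / s) ^ (2 * K) * (2 * Real.exp (Ξ ^ 2 * Real.pi ^ 2 / 3)))) :=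
            mul_le_mul_of_nonneg_left (by linarith) e5
        _ ≤ (Ξ / s) ^ (2 * K) / ((2 * K).factorial : ℝ) * (2 * (((2 * K).factorial : ℝ) / (2 * Ξ / s) ^ (2 * K) * (2 * Real.exp (Ξ ^ 2 * Real.pi ^ 2 / 3)))) := by
            apply mul_le_mul_of_nonneg_right (div_le_div_of_nonneg_right e6 hf.le) (by positivity)
        _ = 4 * (1 / 4) ^ K * Real.exp (Ξ ^ 2 * Real.pi ^ 2 / 3) := by
            have e7 : (2 * Ξ / s) ^ (2 * K) = 4 ^ K * (Ξ / s) ^ (2 * K) := by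
              rw [mul_div_assoc, mul_pow, pow_mul 2 2 K]
              norm_num
            have e8 : 0 < (Ξ / s) ^ (2 * K) := by positivity
            rw [e7, div_pow 1 (4 : ℝ), one_pow]
            field_simp
            norm_num
    have e9 : |y| ^ (2 * K) / ((2 * K).factorial : ℝ) * (2 * av (Icc 1 N ×ˢ SS n) (fun q => (∑ i, q.2 i * m q.1 i) ^ (2 * K)) + D (2 * K)) =
        |y| ^ (2 * K) / ((2 * K).factorial : ℝ) * (2 * av (Icc 1 N ×ˢ SS n) (fun q => (∑ i, q.2 i * m q.1 i) ^ (2 * K))) +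
        |y| ^ (2 * K) / ((2 * K).factorial : ℝ) * D (2 * K) := mul_add _ _ _
    rw [e9]
    linarith
  -- the random signs
  have hpart2 : ‖avC (Icc 1 N ×ˢ SS n) (fun q => Complex.exp (((y * ∑ i, q.2 i * m q.1 i : ℝ) : ℂ) * Complex.I)) -
      ((Real.exp (-(ξ ^ 2 / 2)) : ℝ) : ℂ)‖ ≤ 3 * Ξ ^ 4 / n + Ξ ^ 2 * Q2 n N v := by
    have e1 : avC (Icc 1 N ×ˢ SS n) (fun q => Complex.exp (((y * ∑ i, q.2 i * m q.1 i : ℝ) : ℂ) * Complex.I)) -
        ((Real.exp (-(ξ ^ 2 / 2)) : ℝ) : ℂ) =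
        (((∑ x ∈ Icc 1 N, (Real.cos y ^ (univ.filter fun i => m x i ≠ 0).card - Real.exp (-(ξ ^ 2 / 2)))) / N : ℝ) : ℂ) := by
      unfold avC
      rw [card_product, Nat.cast_mul, sum_product]
      have e2 : ((SS n).card : ℂ) = 2 ^ n := by exact_mod_cast congrArg (fun z : ℝ => (z : ℂ)) (SS_card n)
      rw [e2, Nat.card_Icc, Nat.add_sub_cancel, sum_congr rfl (fun x _ => char_sgn n (m x) (fun i => by rw [hm]; exact mu_cases _) y),
        ← mul_sum, sum_sub_distrib, sum_const, nsmul_eq_mul, Nat.card_Icc, Nat.add_sub_cancel]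
      have h2n : (2 : ℂ) ^ n ≠ 0 := pow_ne_zero _ two_ne_zero
      have hNc : (N : ℂ) ≠ 0 := by exact_mod_cast hN0.ne'
      push_cast
      field_simp
    rw [e1, Complex.norm_real, Real.norm_eq_abs, abs_div, abs_of_pos hN0, div_le_iff₀ hN0]
    refine (abs_sum_le_sum_abs _ _).trans ?_
    have e3 : ∀ x ∈ Icc 1 N, |Real.cos y ^ (univ.filter fun i => m x i ≠ 0).card - Real.exp (-(ξ ^ 2 / 2))| ≤
        3 * Ξ ^ 4 / n + Ξ ^ 2 * |(∑ i, mu (x + v i) ^ 2) / n - c| := by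
      intro x _
      obtain ⟨d, hd⟩ : ∃ d : ℕ, d = (univ.filter fun i => m x i ≠ 0).card := ⟨_, rfl⟩
      rw [← hd]
      have hdr : (∑ i, mu (x + v i) ^ 2) = (d : ℝ) := by
        rw [mu_sq_card, hd, hm]
      have hdn : (d : ℝ) ≤ n := by
        have := card_filter_le (univ : Finset (Fin n)) (fun i => m x i ≠ 0)
        rw [card_univ, Fintype.card_fin] at this
        rw [hd]
        exact_mod_cast this
      rw [hdr]
      have hd0 : (0 : ℝ) ≤ d := Nat.cast_nonneg _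
      have f1 : |Real.cos y ^ d - Real.exp (-(y ^ 2 / 2)) ^ d| ≤ 3 * Ξ ^ 4 / n := by
        have g1 := pow_diff (Real.cos y) (Real.exp (-(y ^ 2 / 2))) (Real.abs_cos_le_one y) (by
          rw [abs_of_pos (Real.exp_pos _)]
          exact Real.exp_le_one_iff.2 (by have := sq_nonneg y; linarith)) d
        have g2 := cos_exp y hy1
        have g3 : y ^ 4 ≤ (Ξ / s) ^ 4 := by
          have : y ^ 4 = |y| ^ 4 := by
            have h4 : |y| ^ 4 = (|y| ^ 2) ^ 2 := by ring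
            rw [h4, sq_abs]
            ring
          rw [this]
          exact pow_le_pow_left₀ (abs_nonneg _) hyΞ 4
        have g4 : (Ξ / s) ^ 4 = Ξ ^ 4 / (c ^ 2 * n ^ 2) := by
          rw [div_pow]
          congr 1
          have : s ^ 4 = (s ^ 2) ^ 2 := by ring
          rw [this, hs2]
          ring
        calc |Real.cos y ^ d - Real.exp (-(y ^ 2 / 2)) ^ d| ≤ d * |Real.cos y - Real.exp (-(y ^ 2 / 2))| := g1
          _ ≤ n * (Ξ ^ 4 / (c ^ 2 * n ^ 2)) := mul_le_mul hdn (by rw [← g4]; exact g2.trans g3) (abs_nonneg _) hn0.le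
          _ = (1 / c ^ 2) * (Ξ ^ 4 / n) := by field_simp
          _ ≤ 3 * (Ξ ^ 4 / n) := by
              apply mul_le_mul_of_nonneg_right _ (by positivity)
              rw [hc]
              exact hc3
          _ = _ := by ring
      have f2 : Real.exp (-(y ^ 2 / 2)) ^ d = Real.exp (-(d * (y ^ 2 / 2))) := by
        rw [← Real.exp_nat_mul]
        congr 1
        ring
      have f3 : |Real.exp (-(d * (y ^ 2 / 2))) - Real.exp (-(ξ ^ 2 / 2))| ≤ Ξ ^ 2 * |(d : ℝ) / n - c| := by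
        refine (exp_diff _ _ (by positivity) (by positivity)).trans ?_
        have g1 : (d : ℝ) * (y ^ 2 / 2) - ξ ^ 2 / 2 = ξ ^ 2 * (1 / (2 * c)) * ((d : ℝ) / n - c) := by
          rw [hy, div_pow, hs2]
          field_simp
        rw [g1, abs_mul, abs_of_nonneg (by positivity : 0 ≤ ξ ^ 2 * (1 / (2 * c)))]
        apply mul_le_mul_of_nonneg_right _ (abs_nonneg _)
        have g2 : ξ ^ 2 ≤ Ξ ^ 2 := by
          rw [← sq_abs ξ]
          exact pow_le_pow_left₀ (abs_nonneg _) hξ 2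
        have g3 : 1 / (2 * c) ≤ 1 := by
          rw [div_le_one (by positivity), hc]
          linarith
        calc ξ ^ 2 * (1 / (2 * c)) ≤ Ξ ^ 2 * 1 := mul_le_mul g2 g3 (by positivity) (by positivity)
          _ = _ := mul_one _
      have f4 : Real.cos y ^ d - Real.exp (-(ξ ^ 2 / 2)) = (Real.cos y ^ d - Real.exp (-(y ^ 2 / 2)) ^ d) +
          (Real.exp (-(d * (y ^ 2 / 2))) - Real.exp (-(ξ ^ 2 / 2))) := by rw [f2]; ring
      rw [f4]
      exact (abs_add_le _ _).trans (add_le_add f1 f3)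
    refine (sum_le_sum e3).trans (le_of_eq ?_)
    rw [sum_add_distrib, sum_const, nsmul_eq_mul, Nat.card_Icc, Nat.add_sub_cancel, ← mul_sum]
    unfold Q2
    rw [← hc]
    field_simp
  have hfin : avC (Icc 1 N) (fun x => Complex.exp (((y * ∑ i, mu (x + v i) : ℝ) : ℂ) * Complex.I)) - ((Real.exp (-(ξ ^ 2 / 2)) : ℝ) : ℂ) =
      (avC (Icc 1 N) (fun x => Complex.exp (((y * ∑ i, m x i : ℝ) : ℂ) * Complex.I)) -
        avC (Icc 1 N ×ˢ SS n) (fun q => Complex.exp (((y * ∑ i, q.2 i * m q.1 i : ℝ) : ℂ) * Complex.I))) +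
      (avC (Icc 1 N ×ˢ SS n) (fun q => Complex.exp (((y * ∑ i, q.2 i * m q.1 i : ℝ) : ℂ) * Complex.I)) -
      ((Real.exp (-(ξ ^ 2 / 2)) : ℝ) : ℂ)) := by
    rw [hm]
    ring
  rw [hfin]
  refine (norm_add_le _ _).trans ?_
  have := hcmp.trans hpart1
  linarith

end Pool.Agent.N699.GL
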