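import Pool.Agent.N699.GL.Prb
import Pool.Agent.N699.GC.Sgen

set_option autoImplicit false

/-! The arithmetic input, and elementary inequalities. -/

namespace Pool.Agent.N699.GL

open Finset
open Pool.Agent.H373R2.T7
open Pool.Agent.N699.RP
open Pool.Agent.N699.GC

lemma lz_mono (B E W W' N : ℕ) (h : W' ≤ W) (hN : 1 ≤ Real.log N) (Ω : Finset ℕ) (p : ℕ → ℝ) (hl : Lz B E W N Ω p) : Lz B E W' N Ω p :=
  ⟨hl.1, hl.2.1, hl.2.2.1, fun α hα => (hl.2.2.2 α hα).trans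
    (one_div_le_one_div_of_le (by positivity) (pow_le_pow_right₀ hN h))⟩

lemma muC_mu (n : ℕ) : muC n = ((mu n : ℝ) : ℂ) := by
  unfold muC mu
  push_cast
  rfl

/-- correlations with bounded functions -/
theorem one_corr (B E V : ℕ) (hB : 1 ≤ B) : ∃ N₀ : ℕ, ∀ N, N₀ ≤ N → ∀ (Ω : Finset ℕ) (p : ℕ → ℝ), Lz B E (2 * V + 1) N Ω p →
    ∀ G : ℕ → ℝ, (∀ x, |G x| ≤ 1) → ∑ u ∈ Ω, p u * |∑ x ∈ Icc 1 N, G x * mu (x + u)| ≤ N / Real.log N ^ V := by
  obtain ⟨n1, h1⟩ := corr_mu 0 B 1 E V hB le_rfl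
  obtain ⟨n2, h2⟩ := ev_L' 1
  refine ⟨n1 + n2 + 3, fun N hN Ω p hlz G hG => ?_⟩
  have hlog := h2 N (by omega)
  have hlw := lw_of_lz B E (2 * V + 1) N Ω p hlog hlz
  have h3 := h1 N (by omega) Ω p (by
    have : 2 * V + 2 * 0 + 1 = 2 * V + 1 := by ring
    rw [this]
    exact hlw) 1 le_rfl (by rw [Nat.cast_one, pow_zero]) 1 0 le_rfl le_rfl (by omega) N (by omega) (fun n => ((G n : ℝ) : ℂ)) (fun n => by
    rw [Complex.norm_real, Real.norm_eq_abs]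
    exact hG n)
  apply cs_prob Ω p hlz.1 hlz.2.1 _ _ (by positivity)
  refine le_trans (le_of_eq ?_) h3
  apply sum_congr rfl
  intro u _
  congr 2
  have e1 : ∑ x ∈ Icc 1 N, ((G x : ℝ) : ℂ) * muC (x + (0 + 1 * u)) = ((∑ x ∈ Icc 1 N, G x * mu (x + u) : ℝ) : ℂ) := by
    push_cast
    apply sum_congr rfl
    intro x _
    rw [muC_mu, zero_add, one_mul]
  rw [e1, Complex.norm_real, Real.norm_eq_abs]

/-- the density of the squarefree values at random shifts -/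
theorem sq_avg (B E : ℕ) : ∃ N₀ : ℕ, ∀ N, N₀ ≤ N → ∀ (Ω : Finset ℕ) (p : ℕ → ℝ), Lz B E 4 N Ω p →
    ∑ x ∈ Icc 1 N, |∑ u ∈ Ω, p u * mu (x + u) ^ 2 - 6 / Real.pi ^ 2| ≤ N * (1 / Real.log N) := by
  obtain ⟨n1, h1⟩ := smooth_gen B E 2
  obtain ⟨n2, h2⟩ := ev_L' 1
  obtain ⟨n3, h3⟩ := log_small (2 * (3 * E + 2 + 1)) 25
  refine ⟨n1 + n2 + n3 + 3, fun N hN Ω p hlz => ?_⟩
  have hlog := h2 N (by omega)
  have hN1 : 1 ≤ N := by omega
  have hN0 : (0 : ℝ) < N := by exact_mod_cast hN1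
  obtain ⟨X, hX⟩ : ∃ X, X = (B + 1) * N := ⟨_, rfl⟩
  have hNX : N ≤ X := by rw [hX]; exact Nat.le_mul_of_pos_left _ (by omega)
  have hX1 : 1 ≤ X := by omega
  have hX0 : (0 : ℝ) < X := by exact_mod_cast hX1
  have hlX : 1 ≤ Real.log (X : ℝ) := h2 X (by omega)
  have hsX := h3 X (by omega)
  have hc0 : 0 < 6 / Real.pi ^ 2 := by positivity
  have hc1 : 6 / Real.pi ^ 2 ≤ 1 := by
    rw [div_le_one (by positivity)]
    have := Real.pi_gt_three
    nlinarith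
  have h4 := h1 N (by omega) Ω p hlz (fun n => ((mu n ^ 2 - 6 / Real.pi ^ 2 : ℝ) : ℂ)) (by
    intro n hn
    rw [← hX]
    rw [Complex.norm_real, Real.norm_eq_abs, abs_le]
    have e1 := sq_nonneg (mu n)
    have e2 : mu n ^ 2 ≤ 1 := by
      rw [← sq_abs]
      exact pow_le_one₀ (abs_nonneg _) (mu_abs n)
    constructor <;> linarith) (by
    intro y hy
    rw [← hX] at hy ⊢
    have e1 := sq_count y
    have e3 : ∑ n ∈ Icc 1 y, ((mu n ^ 2 - 6 / Real.pi ^ 2 : ℝ) : ℂ) = ((∑ n ∈ Icc 1 y, ‖muC n‖ ^ 2 - 6 / Real.pi ^ 2 * y : ℝ) : ℂ) := by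
      have e4 : ∀ n ∈ Icc 1 y, ‖muC n‖ ^ 2 = mu n ^ 2 := by
        intro n _
        rw [muC_mu, Complex.norm_real, Real.norm_eq_abs, sq_abs]
      rw [sum_congr rfl e4]
      push_cast
      rw [sum_sub_distrib, sum_const, Nat.card_Icc, Nat.add_sub_cancel, nsmul_eq_mul]
      ring
    rw [e3, Complex.norm_real, Real.norm_eq_abs]
    refine e1.trans ?_
    have e5 : Real.sqrt y ≤ Real.sqrt X := Real.sqrt_le_sqrt (by exact_mod_cast hy)
    have e6 : 5 * Real.sqrt X ≤ X / Real.log X ^ (3 * E + 2 + 1) := by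
      rw [le_div_iff₀ (by positivity)]
      have e7 : 5 * Real.log X ^ (3 * E + 2 + 1) ≤ Real.sqrt X := by
        apply Real.le_sqrt_of_sq_le
        rw [mul_pow, ← pow_mul, mul_comm (3 * E + 2 + 1) 2]
        norm_num
        norm_num at hsX
        exact hsX
      calc 5 * Real.sqrt X * Real.log X ^ (3 * E + 2 + 1) = Real.sqrt X * (5 * Real.log X ^ (3 * E + 2 + 1)) := by ring
        _ ≤ Real.sqrt X * Real.sqrt X := mul_le_mul_of_nonneg_left e7 (Real.sqrt_nonneg _)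
        _ = X := Real.mul_self_sqrt hX0.le
    linarith)
  have h5 : ∑ x ∈ Icc 1 N, |∑ u ∈ Ω, p u * mu (x + u) ^ 2 - 6 / Real.pi ^ 2| ^ 2 ≤ N / Real.log N ^ 2 := by
    refine le_trans (le_of_eq ?_) h4
    apply sum_congr rfl
    intro x _
    have e1 : ∑ u ∈ Ω, ((p u : ℝ) : ℂ) * ((mu (x + u) ^ 2 - 6 / Real.pi ^ 2 : ℝ) : ℂ) =
        ((∑ u ∈ Ω, p u * mu (x + u) ^ 2 - 6 / Real.pi ^ 2 : ℝ) : ℂ) := by
      have e2 : ∑ u ∈ Ω, p u * mu (x + u) ^ 2 - 6 / Real.pi ^ 2 = ∑ u ∈ Ω, p u * (mu (x + u) ^ 2 - 6 / Real.pi ^ 2) := by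
        simp only [mul_sub, sum_sub_distrib]
        rw [← sum_mul, hlz.2.1, one_mul]
      rw [e2]
      push_cast
      rfl
    rw [e1, Complex.norm_real, Real.norm_eq_abs]
  have h6 := sum_mul_sq_le_sq_mul_sq (Icc 1 N) (fun _ => (1 : ℝ)) (fun x => |∑ u ∈ Ω, p u * mu (x + u) ^ 2 - 6 / Real.pi ^ 2|)
  simp only [one_mul, one_pow, sum_const, Nat.card_Icc, Nat.add_sub_cancel, nsmul_eq_mul, mul_one] at h6
  have h7 : (∑ x ∈ Icc 1 N, |∑ u ∈ Ω, p u * mu (x + u) ^ 2 - 6 / Real.pi ^ 2|) ^ 2 ≤ (N * (1 / Real.log N)) ^ 2 := by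
    refine h6.trans ((mul_le_mul_of_nonneg_left h5 hN0.le).trans (le_of_eq ?_))
    rw [mul_pow, div_pow, one_pow]
    ring
  exact le_of_sq_le_sq h7 (by positivity)

lemma cos_exp (y : ℝ) (hy : |y| ≤ 1) : |Real.cos y - Real.exp (-(y ^ 2 / 2))| ≤ y ^ 4 := by
  have h1 := Real.cos_bound hy
  have hy2 : y ^ 2 ≤ 1 := by rw [← sq_abs]; exact pow_le_one₀ (abs_nonneg _) hy
  have h2 := Real.abs_exp_sub_one_sub_id_le (x := -(y ^ 2 / 2)) (by
    rw [abs_neg, abs_of_nonneg (by positivity)]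
    linarith)
  have h3 : |y| ^ 4 = y ^ 4 := by
    have : |y| ^ 4 = (|y| ^ 2) ^ 2 := by ring
    rw [this, sq_abs]
    ring
  rw [h3] at h1
  have h4 : (-(y ^ 2 / 2)) ^ 2 = y ^ 4 / 4 := by ring
  rw [h4] at h2
  obtain ⟨a1, a2⟩ := abs_le.1 h1
  obtain ⟨b1, b2⟩ := abs_le.1 h2
  have h5 : 0 ≤ y ^ 4 := by positivity
  rw [abs_le]
  constructor <;> linarith

lemma pow_diff (a b : ℝ) (ha : |a| ≤ 1) (hb : |b| ≤ 1) (D : ℕ) : |a ^ D - b ^ D| ≤ D * |a - b| := by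
  induction D with
  | zero => simp
  | succ D ih =>
    have e1 : a ^ (D + 1) - b ^ (D + 1) = a * (a ^ D - b ^ D) + (a - b) * b ^ D := by ring
    rw [e1]
    refine (abs_add_le _ _).trans ?_
    rw [abs_mul, abs_mul, abs_pow]
    have e2 : |a| * |a ^ D - b ^ D| ≤ 1 * (D * |a - b|) := mul_le_mul ha ih (abs_nonneg _) zero_le_one
    have e3 : |a - b| * |b| ^ D ≤ |a - b| * 1 := mul_le_mul_of_nonneg_left (pow_le_one₀ (abs_nonneg _) hb) (abs_nonneg _)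
    push_cast
    linarith

lemma exp_diff (u w : ℝ) (hu : 0 ≤ u) (hw : 0 ≤ w) : |Real.exp (-u) - Real.exp (-w)| ≤ |u - w| := by
  have key : ∀ u w : ℝ, 0 ≤ u → u ≤ w → |Real.exp (-u) - Real.exp (-w)| ≤ |u - w| := by
    intro u w hu huw
    have h1 : Real.exp (-w) ≤ Real.exp (-u) := Real.exp_le_exp.2 (by linarith)
    rw [abs_of_nonneg (by linarith), abs_of_nonpos (by linarith)]
    have h2 : Real.exp (-w) = Real.exp (-u) * Real.exp (-(w - u)) := by rw [← Real.exp_add]; congr 1; ring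
    have h3 := Real.one_sub_le_exp_neg (w - u)
    have h4 : Real.exp (-u) ≤ 1 := Real.exp_le_one_iff.2 (by linarith)
    have h5 : 0 < Real.exp (-u) := Real.exp_pos _
    have h6 : 1 - Real.exp (-(w - u)) ≤ w - u := by linarith
    have h7 : 0 ≤ 1 - Real.exp (-(w - u)) := by
      have := Real.exp_le_one_iff.2 (show -(w - u) ≤ 0 by linarith)
      linarith
    rw [h2]
    calc Real.exp (-u) - Real.exp (-u) * Real.exp (-(w - u)) = Real.exp (-u) * (1 - Real.exp (-(w - u))) := by ring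
      _ ≤ 1 * (w - u) := mul_le_mul h4 h6 h7 zero_le_one
      _ = -(u - w) := by ring
  rcases le_total u w with h | h
  · exact key u w hu h
  · rw [abs_sub_comm, abs_sub_comm u w]
    exact key w u hw h

end Pool.Agent.N699.GL
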