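import Pool.Agent.N699.GL.Sgn
import Pool.Agent.N699.GC.Sq
import Pool.Agent.W93.TD3

set_option autoImplicit false

/-! Independent random shifts: odd correlations, and the law of large numbers for the squarefree values. -/

namespace Pool.Agent.N699.GL

open Finset
open Pool.Agent.W93.TD (avg_w total_w)
open Pool.Agent.N699.GC (mu)

lemma mu_cases (n : ℕ) : mu n = 0 ∨ mu n = 1 ∨ mu n = -1 := by
  unfold mu
  rcases ArithmeticFunction.moebius_eq_or n with h | h | h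
  · left; rw [h]; simp
  · right; left; rw [h]; simp
  · right; right; rw [h]; simp

lemma mu_abs (n : ℕ) : |mu n| ≤ 1 := by
  rcases mu_cases n with h | h | h <;> rw [h] <;> norm_num

lemma mu_odd (n k : ℕ) (hk : Odd k) : mu n ^ k = mu n := by
  rcases mu_cases n with h | h | h
  · rw [h, zero_pow]
    rintro rfl
    exact absurd hk (by decide)
  · rw [h, one_pow]
  · rw [h, hk.neg_one_pow]

variable {n : ℕ}

/-- an index of odd multiplicity -/
lemma odd_corr (N : ℕ) (Ω : Fin n → Finset ℕ) (p : Fin n → ℕ → ℝ) (hp : ∀ i, ∀ u ∈ Ω i, 0 ≤ p i u) (hp1 : ∀ i, ∑ u ∈ Ω i, p i u = 1)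
    (β : ℝ) (hone : ∀ i, ∀ G : ℕ → ℝ, (∀ x, |G x| ≤ 1) → ∑ u ∈ Ω i, p i u * |∑ x ∈ Icc 1 N, G x * mu (x + u)| ≤ β)
    {k : ℕ} (φ : Fin k → Fin n) (hφ : Od φ) :
    ∑ v ∈ Fintype.piFinset Ω, (∏ i, p i (v i)) * |∑ x ∈ Icc 1 N, ∏ j, mu (x + v (φ j))| ≤ β := by
  obtain ⟨i, hi⟩ := hφ
  rw [← avg_w Ω p hp1 i (fun v => |∑ x ∈ Icc 1 N, ∏ j, mu (x + v (φ j))|)]
  have h1 : ∀ v ∈ Fintype.piFinset Ω, (∏ i, p i (v i)) * ∑ u ∈ Ω i, p i u * |∑ x ∈ Icc 1 N, ∏ j, mu (x + Function.update v i u (φ j))| ≤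
      (∏ i, p i (v i)) * β := by
    intro v hv
    apply mul_le_mul_of_nonneg_left _ (prod_nonneg fun j _ => hp j _ (Fintype.mem_piFinset.1 hv j))
    refine le_trans (le_of_eq ?_) (hone i (fun x => ∏ j ∈ univ.filter (fun j => ¬ φ j = i), mu (x + v (φ j))) (fun x => by
      rw [abs_prod]
      exact prod_le_one (fun _ _ => abs_nonneg _) fun _ _ => mu_abs _))
    apply sum_congr rfl
    intro u _
    congr 2
    apply sum_congr rfl
    intro x _
    rw [← prod_filter_mul_prod_filter_not univ (fun j => φ j = i), mul_comm]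
    congr 1
    · apply prod_congr rfl
      intro j hj
      rw [Function.update_of_ne (mem_filter.1 hj).2]
    · rw [prod_congr rfl (g := fun _ => mu (x + u)), prod_const, mu_odd _ _ hi]
      intro j hj
      rw [(mem_filter.1 hj).2, Function.update_self]
  refine (sum_le_sum h1).trans (le_of_eq ?_)
  rw [← sum_mul, total_w Ω p hp1, one_mul]

/-- Cauchy-Schwarz for the product measure -/
lemma cs_pi (Ω : Fin n → Finset ℕ) (p : Fin n → ℕ → ℝ) (hp : ∀ i, ∀ u ∈ Ω i, 0 ≤ p i u) (hp1 : ∀ i, ∑ u ∈ Ω i, p i u = 1)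
    (f : (Fin n → ℕ) → ℝ) (c : ℝ) (hc : 0 ≤ c) (h : ∑ v ∈ Fintype.piFinset Ω, (∏ i, p i (v i)) * f v ^ 2 ≤ c ^ 2) :
    ∑ v ∈ Fintype.piFinset Ω, (∏ i, p i (v i)) * |f v| ≤ c := by
  have h0 : ∀ v ∈ Fintype.piFinset Ω, 0 ≤ ∏ i, p i (v i) := fun v hv => prod_nonneg fun j _ => hp j _ (Fintype.mem_piFinset.1 hv j)
  have h1 : (∑ v ∈ Fintype.piFinset Ω, (∏ i, p i (v i)) * |f v|) ^ 2 ≤
      (∑ v ∈ Fintype.piFinset Ω, ∏ i, p i (v i)) * (∑ v ∈ Fintype.piFinset Ω, (∏ i, p i (v i)) * f v ^ 2) := by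
    apply sum_sq_le_sum_mul_sum_of_sq_le_mul _ h0 (fun v hv => mul_nonneg (h0 v hv) (sq_nonneg _))
    intro v _
    rw [mul_pow, sq_abs]
    exact le_of_eq (by ring)
  rw [total_w Ω p hp1, one_mul] at h1
  exact le_of_sq_le_sq (h1.trans h) hc

/-- the law of large numbers for bounded functions of independent variables -/
lemma lln_one (Ω : Fin n → Finset ℕ) (p : Fin n → ℕ → ℝ) (hp : ∀ i, ∀ u ∈ Ω i, 0 ≤ p i u) (hp1 : ∀ i, ∑ u ∈ Ω i, p i u = 1)
    (g : Fin n → ℕ → ℝ) (hg : ∀ i u, |g i u| ≤ 1) (hg0 : ∀ i, ∑ u ∈ Ω i, p i u * g i u = 0) :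
    ∑ v ∈ Fintype.piFinset Ω, (∏ i, p i (v i)) * |∑ i, g i (v i)| ≤ Real.sqrt n := by
  apply cs_pi Ω p hp hp1 _ _ (Real.sqrt_nonneg _)
  rw [Real.sq_sqrt (Nat.cast_nonneg _)]
  have h0 : ∀ v ∈ Fintype.piFinset Ω, 0 ≤ ∏ i, p i (v i) := fun v hv => prod_nonneg fun j _ => hp j _ (Fintype.mem_piFinset.1 hv j)
  have h1 : ∑ v ∈ Fintype.piFinset Ω, (∏ i, p i (v i)) * (∑ i, g i (v i)) ^ 2 =
      ∑ i, ∑ j, ∑ v ∈ Fintype.piFinset Ω, (∏ i, p i (v i)) * (g i (v i) * g j (v j)) := by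
    have e1 : ∀ v ∈ Fintype.piFinset Ω, (∏ i, p i (v i)) * (∑ i, g i (v i)) ^ 2 =
        ∑ i, ∑ j, (∏ i, p i (v i)) * (g i (v i) * g j (v j)) := by
      intro v _
      rw [sq, sum_mul_sum, mul_sum]
      apply sum_congr rfl
      intro i _
      rw [mul_sum]
    rw [sum_congr rfl e1, sum_comm]
    apply sum_congr rfl
    intro i _
    rw [sum_comm]
  rw [h1]
  have h2 : ∀ i j, ∑ v ∈ Fintype.piFinset Ω, (∏ i, p i (v i)) * (g i (v i) * g j (v j)) ≤ if j = i then 1 else 0 := by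
    intro i j
    split_ifs with hij
    · calc ∑ v ∈ Fintype.piFinset Ω, (∏ i, p i (v i)) * (g i (v i) * g j (v j)) ≤ ∑ v ∈ Fintype.piFinset Ω, (∏ i, p i (v i)) * 1 := by
            apply sum_le_sum
            intro v hv
            apply mul_le_mul_of_nonneg_left _ (h0 v hv)
            rw [hij]
            have := hg i (v i)
            have e := abs_le.1 this
            nlinarith [e.1, e.2]
        _ = 1 := by simp only [mul_one]; exact total_w Ω p hp1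
    · rw [← avg_w Ω p hp1 i (fun v => g i (v i) * g j (v j))]
      apply le_of_eq
      apply sum_eq_zero
      intro v _
      have e1 : ∑ u ∈ Ω i, p i u * (g i (Function.update v i u i) * g j (Function.update v i u j)) = 0 := by
        have e2 : ∀ u ∈ Ω i, p i u * (g i (Function.update v i u i) * g j (Function.update v i u j)) = g j (v j) * (p i u * g i u) := by
          intro u _
          rw [Function.update_self, Function.update_of_ne hij]
          ring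
        rw [sum_congr rfl e2, ← mul_sum, hg0, mul_zero]
      rw [e1, mul_zero]
  refine (sum_le_sum fun i _ => sum_le_sum fun j _ => h2 i j).trans (le_of_eq ?_)
  simp

/-- the law of large numbers for the number of the squarefree values -/
lemma lln (N : ℕ) (hN : 1 ≤ N) (hn : 1 ≤ n) (Ω : Fin n → Finset ℕ) (p : Fin n → ℕ → ℝ) (hp : ∀ i, ∀ u ∈ Ω i, 0 ≤ p i u)
    (hp1 : ∀ i, ∑ u ∈ Ω i, p i u = 1) (c η : ℝ) (hq : ∀ i, ∑ x ∈ Icc 1 N, |∑ u ∈ Ω i, p i u * mu (x + u) ^ 2 - c| ≤ N * η) :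
    ∑ v ∈ Fintype.piFinset Ω, (∏ i, p i (v i)) * ((∑ x ∈ Icc 1 N, |(∑ i, mu (x + v i) ^ 2) / n - c|) / N) ≤ 1 / Real.sqrt n + η := by
  have hN0 : (0 : ℝ) < N := by exact_mod_cast hN
  have hn0 : (0 : ℝ) < n := by exact_mod_cast hn
  have h0 : ∀ v ∈ Fintype.piFinset Ω, 0 ≤ ∏ i, p i (v i) := fun v hv => prod_nonneg fun j _ => hp j _ (Fintype.mem_piFinset.1 hv j)
  obtain ⟨q, hqd⟩ : ∃ q : Fin n → ℕ → ℝ, q = fun i x => ∑ u ∈ Ω i, p i u * mu (x + u) ^ 2 := ⟨_, rfl⟩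
  have hsq : ∀ t, mu t ^ 2 ≤ 1 := fun t => by
    rw [← sq_abs]
    exact pow_le_one₀ (abs_nonneg _) (mu_abs t)
  have hq0 : ∀ i x, 0 ≤ q i x := by
    intro i x
    rw [hqd]
    exact sum_nonneg fun u hu => mul_nonneg (hp i u hu) (sq_nonneg _)
  have hq1 : ∀ i x, q i x ≤ 1 := by
    intro i x
    rw [hqd, ← hp1 i]
    apply sum_le_sum
    intro u hu
    have := mul_le_mul_of_nonneg_left (hsq (x + u)) (hp i u hu)
    linarith
  have hx : ∀ x, ∑ v ∈ Fintype.piFinset Ω, (∏ i, p i (v i)) * |(∑ i, mu (x + v i) ^ 2) / n - c| ≤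
      1 / Real.sqrt n + (∑ i, |q i x - c|) / n := by
    intro x
    have h1 := lln_one Ω p hp hp1 (fun i u => mu (x + u) ^ 2 - q i x) (by
      intro i u
      rw [abs_le]
      have a1 := hsq (x + u)
      have a2 := sq_nonneg (mu (x + u))
      have a3 := hq0 i x
      have a4 := hq1 i x
      constructor <;> linarith) (by
      intro i
      simp only [mul_sub, sum_sub_distrib]
      rw [← sum_mul, hp1, one_mul, hqd, sub_self])
    have h2 : ∀ v ∈ Fintype.piFinset Ω, (∏ i, p i (v i)) * |(∑ i, mu (x + v i) ^ 2) / n - c| ≤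
        (∏ i, p i (v i)) * |∑ i, (mu (x + v i) ^ 2 - q i x)| * (1 / n) + (∏ i, p i (v i)) * ((∑ i, |q i x - c|) / n) := by
      intro v hv
      rw [mul_assoc, ← mul_add]
      apply mul_le_mul_of_nonneg_left _ (h0 v hv)
      have e1 : (∑ i, mu (x + v i) ^ 2) / n - c = (∑ i, (mu (x + v i) ^ 2 - q i x)) * (1 / n) + (∑ i, (q i x - c)) / n := by
        rw [sum_sub_distrib, sum_sub_distrib, sum_const, card_univ, Fintype.card_fin, nsmul_eq_mul]
        field_simp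
        ring
      rw [e1]
      refine (abs_add_le _ _).trans (add_le_add ?_ ?_)
      · rw [abs_mul, abs_of_nonneg (by positivity : (0 : ℝ) ≤ 1 / n)]
      · rw [abs_div, abs_of_pos hn0]
        exact div_le_div_of_nonneg_right (abs_sum_le_sum_abs _ _) hn0.le
    refine (sum_le_sum h2).trans ?_
    rw [sum_add_distrib, ← sum_mul, ← sum_mul, total_w Ω p hp1, one_mul]
    apply add_le_add _ le_rfl
    calc (∑ v ∈ Fintype.piFinset Ω, (∏ i, p i (v i)) * |∑ i, (mu (x + v i) ^ 2 - q i x)|) * (1 / n) ≤ Real.sqrt n * (1 / n) :=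
          mul_le_mul_of_nonneg_right h1 (by positivity)
      _ = 1 / Real.sqrt n := by
          have h3 : (n : ℝ) = Real.sqrt n * Real.sqrt n := (Real.mul_self_sqrt hn0.le).symm
          have h4 : 0 < Real.sqrt n := Real.sqrt_pos.2 hn0
          rw [mul_one_div, div_eq_div_iff hn0.ne' h4.ne', one_mul]
          exact h3.symm
  have h3 : ∑ v ∈ Fintype.piFinset Ω, (∏ i, p i (v i)) * ((∑ x ∈ Icc 1 N, |(∑ i, mu (x + v i) ^ 2) / n - c|) / N) =
      (∑ x ∈ Icc 1 N, ∑ v ∈ Fintype.piFinset Ω, (∏ i, p i (v i)) * |(∑ i, mu (x + v i) ^ 2) / n - c|) / N := by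
    rw [sum_comm, sum_div]
    apply sum_congr rfl
    intro v _
    rw [← mul_sum, mul_div_assoc]
  rw [h3, div_le_iff₀ hN0]
  refine (sum_le_sum fun x _ => hx x).trans ?_
  rw [sum_add_distrib, sum_const, nsmul_eq_mul, Nat.card_Icc, Nat.add_sub_cancel, ← sum_div, sum_comm]
  have h4 : ∑ i, ∑ x ∈ Icc 1 N, |q i x - c| ≤ n * (N * η) := by
    refine (sum_le_sum fun i _ => ?_ : ∑ i, ∑ x ∈ Icc 1 N, |q i x - c| ≤ ∑ _i : Fin n, (N * η)).trans (le_of_eq ?_)
    · rw [hqd]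
      exact hq i
    · rw [sum_const, card_univ, Fintype.card_fin, nsmul_eq_mul]
  have h5 : (∑ i, ∑ x ∈ Icc 1 N, |q i x - c|) / n ≤ N * η := by
    rw [div_le_iff₀ hn0]
    linarith
  linarith

end Pool.Agent.N699.GL
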