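import Mathlib

set_option autoImplicit false

/-! The remainder of the exponential series, and the comparison of characteristic functions by moments. -/

namespace Pool.Agent.N699.GL

open Finset

/-- the remainder of the exponential series -/
noncomputable def rem (K : ℕ) (s : ℝ) : ℂ :=
  Complex.exp (s * Complex.I) - ∑ j ∈ range K, ((s : ℂ) * Complex.I) ^ j / (j.factorial : ℂ)

lemma rem_zero_arg (K : ℕ) : rem (K + 1) 0 = 0 := by
  unfold rem
  rw [Finset.sum_range_succ']
  simp

lemma rem_succ (K : ℕ) (s : ℝ) :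
    rem (K + 1) s = rem K s - ((s : ℂ) * Complex.I) ^ K / (K.factorial : ℂ) := by
  unfold rem
  rw [Finset.sum_range_succ]
  ring

lemma hasDerivAt_pow_term (K : ℕ) (s : ℝ) :
    HasDerivAt (fun u : ℝ => ((u : ℂ) * Complex.I) ^ (K + 1) / ((K + 1).factorial : ℂ))
      (Complex.I * (((s : ℂ) * Complex.I) ^ K / (K.factorial : ℂ))) s := by
  have h1 : HasDerivAt (fun u : ℝ => (u : ℂ) * Complex.I) Complex.I s := by
    simpa using (Complex.ofRealCLM.hasDerivAt (x := s)).mul_const Complex.I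
  have h2 := (h1.fun_pow (K + 1)).div_const ((K + 1).factorial : ℂ)
  refine h2.congr_deriv ?_
  rw [Nat.factorial_succ]
  push_cast
  have h3 : ((K : ℂ) + 1) ≠ 0 := by exact_mod_cast Nat.succ_ne_zero K
  have h4 : (K.factorial : ℂ) ≠ 0 := by exact_mod_cast K.factorial_ne_zero
  field_simp

lemma hasDerivAt_rem (K : ℕ) (s : ℝ) : HasDerivAt (rem (K + 1)) (Complex.I * rem K s) s := by
  induction K generalizing s with
  | zero =>
    have e : rem (0 + 1) = fun u : ℝ => Complex.exp (u * Complex.I) - 1 := by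
      funext u
      simp [rem]
    rw [e]
    have h1 : HasDerivAt (fun u : ℝ => (u : ℂ) * Complex.I) Complex.I s := by
      simpa using (Complex.ofRealCLM.hasDerivAt (x := s)).mul_const Complex.I
    have h2 := (h1.cexp).sub_const 1
    refine h2.congr_deriv ?_
    simp [rem]
    ring
  | succ K ih =>
    have e : rem (K + 1 + 1) = fun u : ℝ => rem (K + 1) u -
        ((u : ℂ) * Complex.I) ^ (K + 1) / ((K + 1).factorial : ℂ) := by
      funext u
      exact rem_succ (K + 1) u
    rw [e]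
    refine ((ih s).fun_sub (hasDerivAt_pow_term K s)).congr_deriv ?_
    rw [rem_succ K s]
    ring

lemma norm_rem_le_nonneg (K : ℕ) : ∀ s : ℝ, 0 ≤ s → ‖rem K s‖ ≤ s ^ K / (K.factorial : ℝ) := by
  induction K with
  | zero =>
    intro s _
    simp [rem]
  | succ K ih =>
    intro s hs
    have hB : ∀ u : ℝ, HasDerivAt (fun u : ℝ => u ^ (K + 1) / ((K + 1).factorial : ℝ))
        (u ^ K / (K.factorial : ℝ)) u := by
      intro u
      have h2 := (hasDerivAt_pow (K + 1) u).div_const ((K + 1).factorial : ℝ)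
      refine h2.congr_deriv ?_
      rw [Nat.factorial_succ]
      push_cast
      have h3 : ((K : ℝ) + 1) ≠ 0 := by positivity
      have h4 : (K.factorial : ℝ) ≠ 0 := by exact_mod_cast K.factorial_ne_zero
      field_simp
    have := image_norm_le_of_norm_deriv_right_le_deriv_boundary (a := 0) (b := s)
      (f := rem (K + 1)) (f' := fun u => Complex.I * rem K u)
      (B := fun u : ℝ => u ^ (K + 1) / ((K + 1).factorial : ℝ))
      (B' := fun u => u ^ K / (K.factorial : ℝ))
      (fun u _ => (hasDerivAt_rem K u).continuousAt.continuousWithinAt)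
      (fun u _ => (hasDerivAt_rem K u).hasDerivWithinAt)
      (by rw [rem_zero_arg]; simp) hB
      (fun u hu => by
        rw [norm_mul, Complex.norm_I, one_mul]
        exact ih u hu.1)
    exact this (Set.right_mem_Icc.2 hs)

lemma rem_neg (K : ℕ) (s : ℝ) : rem K (-s) = (starRingEnd ℂ) (rem K s) := by
  unfold rem
  rw [map_sub, map_sum, ← Complex.exp_conj]
  simp only [map_mul, Complex.conj_ofReal, Complex.conj_I, map_div₀, map_pow, Complex.conj_natCast,
    Complex.ofReal_neg, neg_mul, mul_neg]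

/-- `|e^{is} - ∑_{j < K} (is)^j / j!| ≤ |s|^K / K!` -/
lemma norm_rem_le (K : ℕ) (s : ℝ) : ‖rem K s‖ ≤ |s| ^ K / (K.factorial : ℝ) := by
  rcases le_total 0 s with h | h
  · rw [abs_of_nonneg h]
    exact norm_rem_le_nonneg K s h
  · have h1 := norm_rem_le_nonneg K (-s) (by linarith)
    rw [rem_neg, Complex.norm_conj] at h1
    rwa [abs_of_nonpos h]

/-- the average over a finite set -/
noncomputable def av {α : Type} (S : Finset α) (f : α → ℝ) : ℝ := (∑ s ∈ S, f s) / S.card

/-- the average over a finite set -/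
noncomputable def avC {α : Type} (S : Finset α) (f : α → ℂ) : ℂ := (∑ s ∈ S, f s) / S.card

lemma av_mono {α : Type} (S : Finset α) (f g : α → ℝ) (h : ∀ s ∈ S, f s ≤ g s) : av S f ≤ av S g :=
  div_le_div_of_nonneg_right (sum_le_sum h) (Nat.cast_nonneg _)

lemma norm_avC_le {α : Type} (S : Finset α) (f : α → ℂ) (g : α → ℝ) (h : ∀ s ∈ S, ‖f s‖ ≤ g s) : ‖avC S f‖ ≤ av S g := by
  unfold avC av
  rw [norm_div, Complex.norm_natCast]
  exact div_le_div_of_nonneg_right ((norm_sum_le _ _).trans (sum_le_sum h)) (Nat.cast_nonneg _)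

lemma avC_taylor {α : Type} (S : Finset α) (X : α → ℝ) (K : ℕ) (y : ℝ) :
    avC S (fun s => Complex.exp (((y * X s : ℝ) : ℂ) * Complex.I)) =
      ∑ k ∈ range K, ((y : ℂ) * Complex.I) ^ k / (k.factorial : ℂ) * ((av S fun s => X s ^ k : ℝ) : ℂ) +
      avC S (fun s => rem K (y * X s)) := by
  unfold avC av
  have h1 : ∀ s ∈ S, Complex.exp (((y * X s : ℝ) : ℂ) * Complex.I) =
      ∑ k ∈ range K, ((y : ℂ) * Complex.I) ^ k / (k.factorial : ℂ) * ((X s ^ k : ℝ) : ℂ) + rem K (y * X s) := by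
    intro s _
    unfold rem
    have h2 : ∑ k ∈ range K, ((y : ℂ) * Complex.I) ^ k / (k.factorial : ℂ) * ((X s ^ k : ℝ) : ℂ) =
        ∑ j ∈ range K, (((y * X s : ℝ) : ℂ) * Complex.I) ^ j / (j.factorial : ℂ) := by
      apply sum_congr rfl
      intro k _
      push_cast
      ring
    rw [h2]
    ring
  rw [sum_congr rfl h1, sum_add_distrib, add_div, sum_comm]
  congr 1
  rw [sum_div]
  apply sum_congr rfl
  intro k _
  push_cast
  rw [← mul_sum, mul_div_assoc]

/-- comparison of characteristic functions -/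
theorem char_compare {α β : Type} (S : Finset α) (S' : Finset β) (X : α → ℝ) (Y : β → ℝ) (K : ℕ) (y : ℝ) (D : ℕ → ℝ)
    (hD : ∀ k ≤ 2 * K, |av S (fun s => X s ^ k) - av S' (fun s => Y s ^ k)| ≤ D k) :
    ‖avC S (fun s => Complex.exp (((y * X s : ℝ) : ℂ) * Complex.I)) - avC S' (fun s => Complex.exp (((y * Y s : ℝ) : ℂ) * Complex.I))‖ ≤
      ∑ k ∈ range (2 * K), |y| ^ k / (k.factorial : ℝ) * D k +
        |y| ^ (2 * K) / ((2 * K).factorial : ℝ) * (2 * av S' (fun s => Y s ^ (2 * K)) + D (2 * K)) := by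
  rw [avC_taylor S X (2 * K) y, avC_taylor S' Y (2 * K) y]
  have h1 : ∀ (γ : Type) (T : Finset γ) (Z : γ → ℝ), ‖avC T (fun s => rem (2 * K) (y * Z s))‖ ≤
      |y| ^ (2 * K) / ((2 * K).factorial : ℝ) * av T (fun s => Z s ^ (2 * K)) := by
    intro γ T Z
    refine (norm_avC_le T _ (fun s => |y| ^ (2 * K) / ((2 * K).factorial : ℝ) * Z s ^ (2 * K)) (fun s _ => ?_)).trans (le_of_eq ?_)
    · refine (norm_rem_le (2 * K) (y * Z s)).trans (le_of_eq ?_)
      rw [abs_mul, mul_pow]
      have : |Z s| ^ (2 * K) = Z s ^ (2 * K) := by rw [pow_mul, sq_abs, ← pow_mul]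
      rw [this]
      ring
    · unfold av
      rw [← mul_sum, mul_div_assoc]
  have h2 := h1 α S X
  have h3 := h1 β S' Y
  have h4 : av S (fun s => X s ^ (2 * K)) ≤ av S' (fun s => Y s ^ (2 * K)) + D (2 * K) := by
    have := (abs_le.1 (hD (2 * K) le_rfl)).2
    linarith
  have h5 : ‖∑ k ∈ range (2 * K), ((y : ℂ) * Complex.I) ^ k / (k.factorial : ℂ) * ((av S fun s => X s ^ k : ℝ) : ℂ) -
      ∑ k ∈ range (2 * K), ((y : ℂ) * Complex.I) ^ k / (k.factorial : ℂ) * ((av S' fun s => Y s ^ k : ℝ) : ℂ)‖ ≤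
      ∑ k ∈ range (2 * K), |y| ^ k / (k.factorial : ℝ) * D k := by
    rw [← sum_sub_distrib]
    refine (norm_sum_le _ _).trans (sum_le_sum fun k hk => ?_)
    rw [mem_range] at hk
    rw [← mul_sub, norm_mul, norm_div, norm_pow, norm_mul, Complex.norm_I, mul_one, Complex.norm_real, Real.norm_eq_abs,
      Complex.norm_natCast, ← Complex.ofReal_sub, Complex.norm_real, Real.norm_eq_abs]
    exact mul_le_mul_of_nonneg_left (hD k hk.le) (by positivity)
  have h6 : 0 ≤ |y| ^ (2 * K) / ((2 * K).factorial : ℝ) := by positivity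
  have h7 : ∀ a b c d : ℂ, a + b - (c + d) = (a - c) + (b - d) := by intro a b c d; ring
  rw [h7]
  refine (norm_add_le _ _).trans ?_
  refine add_le_add h5 ((norm_sub_le _ _).trans ?_)
  have h8 := mul_le_mul_of_nonneg_left h4 h6
  have h9 : |y| ^ (2 * K) / ((2 * K).factorial : ℝ) * (2 * av S' (fun s => Y s ^ (2 * K)) + D (2 * K)) =
      |y| ^ (2 * K) / ((2 * K).factorial : ℝ) * (av S' (fun s => Y s ^ (2 * K)) + D (2 * K)) +
      |y| ^ (2 * K) / ((2 * K).factorial : ℝ) * av S' (fun s => Y s ^ (2 * K)) := by ring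
  rw [h9]
  linarith

end Pool.Agent.N699.GL
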