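import Pool.Agent.N699.GL.Rem

set_option autoImplicit false

/-! Random signs. -/

namespace Pool.Agent.N699.GL

open Finset

/-- sign vectors -/
noncomputable def SS (n : ℕ) : Finset (Fin n → ℝ) := Fintype.piFinset fun _ => ({1, -1} : Finset ℝ)

lemma one_ne : (1 : ℝ) ≠ -1 := by norm_num

lemma SS_card (n : ℕ) : ((SS n).card : ℝ) = 2 ^ n := by
  unfold SS
  rw [Fintype.card_piFinset]
  simp only [card_pair one_ne, prod_const, card_univ, Fintype.card_fin]
  push_cast
  rfl

lemma SS_prod {R : Type} [CommRing R] (n : ℕ) (f : Fin n → ℝ → R) : ∑ ε ∈ SS n, ∏ i, f i (ε i) = ∏ i, (f i 1 + f i (-1)) := by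
  unfold SS
  rw [← prod_univ_sum]
  apply prod_congr rfl
  intro i _
  rw [sum_pair one_ne]

/-- the moments of a sum with random signs -/
lemma mom_bound (n : ℕ) (m : Fin n → ℝ) (hm : ∀ i, |m i| ≤ 1) (K : ℕ) (c : ℝ) (hc : 0 < c) :
    (∑ ε ∈ SS n, (∑ i, ε i * m i) ^ (2 * K)) / 2 ^ n ≤ ((2 * K).factorial : ℝ) / c ^ (2 * K) * (2 * Real.exp (c ^ 2 * n / 2)) := by
  have h1 : ∀ A : ℝ, A ^ (2 * K) ≤ ((2 * K).factorial : ℝ) / c ^ (2 * K) * (Real.exp (c * A) + Real.exp (-c * A)) := by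
    intro A
    have h2 := Real.pow_div_factorial_le_exp (|c * A|) (abs_nonneg _) (2 * K)
    have h3 : |c * A| ^ (2 * K) = c ^ (2 * K) * A ^ (2 * K) := by
      rw [pow_mul, sq_abs, ← pow_mul, mul_pow]
    have h4 : Real.exp |c * A| ≤ Real.exp (c * A) + Real.exp (-c * A) := by
      rcases abs_cases (c * A) with h | h
      · rw [h.1]
        have := Real.exp_pos (-c * A)
        linarith
      · rw [h.1]
        have := Real.exp_pos (c * A)
        have e : -(c * A) = -c * A := by ring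
        rw [e]
        linarith
    rw [h3] at h2
    have hf : (0 : ℝ) < ((2 * K).factorial : ℝ) := by exact_mod_cast Nat.factorial_pos _
    have hcp : 0 < c ^ (2 * K) := by positivity
    rw [div_le_iff₀ hf] at h2
    rw [div_mul_eq_mul_div, le_div_iff₀ hcp]
    calc A ^ (2 * K) * c ^ (2 * K) = c ^ (2 * K) * A ^ (2 * K) := mul_comm _ _
      _ ≤ Real.exp |c * A| * ((2 * K).factorial : ℝ) := h2
      _ ≤ (Real.exp (c * A) + Real.exp (-c * A)) * ((2 * K).factorial : ℝ) := mul_le_mul_of_nonneg_right h4 hf.le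
      _ = _ := by ring
  have h5 : ∀ t : ℝ, ∑ ε ∈ SS n, Real.exp (t * ∑ i, ε i * m i) ≤ 2 ^ n * Real.exp (t ^ 2 * n / 2) := by
    intro t
    have e1 : ∀ ε ∈ SS n, Real.exp (t * ∑ i, ε i * m i) = ∏ i, Real.exp (t * (ε i * m i)) := by
      intro ε _
      rw [← Real.exp_sum, mul_sum]
    rw [sum_congr rfl e1, SS_prod n (fun i e => Real.exp (t * (e * m i)))]
    have e2 : ∀ i ∈ (univ : Finset (Fin n)), Real.exp (t * (1 * m i)) + Real.exp (t * (-1 * m i)) ≤ 2 * Real.exp (t ^ 2 / 2) := by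
      intro i _
      have e3 : Real.exp (t * (1 * m i)) + Real.exp (t * (-1 * m i)) = 2 * Real.cosh (t * m i) := by
        rw [Real.cosh_eq]
        have : t * (-1 * m i) = -(t * m i) := by ring
        rw [this, one_mul]
        ring
      have e4 := Real.cosh_le_exp_half_sq (t * m i)
      have e5 : (t * m i) ^ 2 / 2 ≤ t ^ 2 / 2 := by
        have : (t * m i) ^ 2 = t ^ 2 * (m i) ^ 2 := by ring
        have h6 : (m i) ^ 2 ≤ 1 := by
          rw [← sq_abs]
          exact pow_le_one₀ (abs_nonneg _) (hm i)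
        rw [this]
        have : 0 ≤ t ^ 2 := sq_nonneg t
        nlinarith
      have e6 := Real.exp_le_exp.2 e5
      rw [e3]
      linarith
    refine (prod_le_prod (fun i _ => by positivity) e2).trans (le_of_eq ?_)
    rw [prod_const, card_univ, Fintype.card_fin, mul_pow, ← Real.exp_nat_mul]
    congr 2
    ring
  have h6 : ∑ ε ∈ SS n, (∑ i, ε i * m i) ^ (2 * K) ≤
      ((2 * K).factorial : ℝ) / c ^ (2 * K) * (2 ^ n * (2 * Real.exp (c ^ 2 * n / 2))) := by
    refine (sum_le_sum fun ε _ => h1 (∑ i, ε i * m i)).trans ?_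
    rw [← mul_sum, sum_add_distrib]
    apply mul_le_mul_of_nonneg_left _ (by positivity)
    have e1 := h5 c
    have e2 := h5 (-c)
    rw [neg_sq] at e2
    linarith
  rw [div_le_iff₀ (by positivity)]
  refine h6.trans (le_of_eq ?_)
  ring

/-- the characteristic function of a sum with random signs -/
lemma char_sgn (n : ℕ) (m : Fin n → ℝ) (hm : ∀ i, m i = 0 ∨ m i = 1 ∨ m i = -1) (y : ℝ) :
    ∑ ε ∈ SS n, Complex.exp (((y * ∑ i, ε i * m i : ℝ) : ℂ) * Complex.I) =
      2 ^ n * ((Real.cos y ^ (univ.filter fun i => m i ≠ 0).card : ℝ) : ℂ) := by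
  have e1 : ∀ ε ∈ SS n, Complex.exp (((y * ∑ i, ε i * m i : ℝ) : ℂ) * Complex.I) =
      ∏ i, Complex.exp (((y * (ε i * m i) : ℝ) : ℂ) * Complex.I) := by
    intro ε _
    rw [← Complex.exp_sum, ← sum_mul, mul_sum]
    push_cast
    rfl
  rw [sum_congr rfl e1, SS_prod n (fun i e => Complex.exp (((y * (e * m i) : ℝ) : ℂ) * Complex.I))]
  have e2 : ∀ i ∈ (univ : Finset (Fin n)), Complex.exp (((y * (1 * m i) : ℝ) : ℂ) * Complex.I) +
      Complex.exp (((y * (-1 * m i) : ℝ) : ℂ) * Complex.I) = 2 * (if m i ≠ 0 then ((Real.cos y : ℝ) : ℂ) else 1) := by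
    intro i _
    have e3 : Complex.exp (((y * (1 * m i) : ℝ) : ℂ) * Complex.I) + Complex.exp (((y * (-1 * m i) : ℝ) : ℂ) * Complex.I) =
        2 * ((Real.cos (y * m i) : ℝ) : ℂ) := by
      push_cast
      rw [Complex.cos]
      have e4 : (y : ℂ) * (-1 * (m i : ℂ)) * Complex.I = -((y : ℂ) * (m i : ℂ)) * Complex.I := by ring
      have e5 : (y : ℂ) * (1 * (m i : ℂ)) * Complex.I = ((y : ℂ) * (m i : ℂ)) * Complex.I := by ring
      rw [e4, e5]
      ring
    rw [e3]
    rcases hm i with h | h | h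
    · rw [h]; simp
    · rw [h]; simp
    · rw [h]; simp
  rw [prod_congr rfl e2, prod_mul_distrib, prod_const, card_univ, Fintype.card_fin]
  congr 1
  rw [prod_ite, prod_const, prod_const_one, mul_one]
  push_cast
  rfl

/-- some index occurs an odd number of times -/
def Od {k n : ℕ} (φ : Fin k → Fin n) : Prop := ∃ i, Odd (univ.filter fun j => φ j = i).card

lemma prod_fib {k n : ℕ} (φ : Fin k → Fin n) (e : Fin n → ℝ) : ∏ j, e (φ j) = ∏ i, e i ^ (univ.filter fun j => φ j = i).card := by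
  rw [← prod_fiberwise_of_maps_to (s := univ) (t := univ) (g := φ) (fun _ _ => mem_univ _)]
  apply prod_congr rfl
  intro i _
  rw [prod_congr rfl (g := fun _ => e i), prod_const]
  intro j hj
  rw [(mem_filter.1 hj).2]

open Classical in
lemma sgn_avg {k n : ℕ} (φ : Fin k → Fin n) : ∑ ε ∈ SS n, ∏ j, ε (φ j) = if Od φ then 0 else 2 ^ n := by
  have h1 : ∀ ε ∈ SS n, ∏ j, ε (φ j) = ∏ i, ε i ^ (univ.filter fun j => φ j = i).card := fun ε _ => prod_fib φ ε
  rw [sum_congr rfl h1, SS_prod n (fun i e => e ^ (univ.filter fun j => φ j = i).card)]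
  split_ifs with h
  · obtain ⟨i, hi⟩ := h
    apply prod_eq_zero (mem_univ i)
    rw [one_pow, hi.neg_one_pow]
    ring
  · unfold Od at h
    push Not at h
    rw [prod_congr rfl (g := fun _ => (2 : ℝ))]
    · rw [prod_const, card_univ, Fintype.card_fin]
    · intro i _
      have := h i
      rw [Nat.not_odd_iff_even] at this
      rw [one_pow, this.neg_one_pow]
      norm_num

open Classical in
/-- the difference of the moments -/
lemma mom_diff (n k : ℕ) (S : Finset ℕ) (m : ℕ → Fin n → ℝ) :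
    |av S (fun x => (∑ i, m x i) ^ k) - av (S ×ˢ SS n) (fun q => (∑ i, q.2 i * m q.1 i) ^ k)| ≤
      (∑ φ : Fin k → Fin n, (if Od φ then |∑ x ∈ S, ∏ j, m x (φ j)| else 0)) / S.card := by
  unfold av
  rw [card_product, Nat.cast_mul, SS_card, sum_product]
  have h2n : (0 : ℝ) < 2 ^ n := by positivity
  have h1 : ∀ x ∈ S, ∑ ε ∈ SS n, (∑ i, ε i * m x i) ^ k = 2 ^ n * ∑ φ : Fin k → Fin n, (if Od φ then 0 else ∏ j, m x (φ j)) := by
    intro x _
    have e1 : ∀ ε ∈ SS n, (∑ i, ε i * m x i) ^ k = ∑ φ : Fin k → Fin n, (∏ j, ε (φ j)) * ∏ j, m x (φ j) := by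
      intro ε _
      rw [Fintype.sum_pow]
      apply sum_congr rfl
      intro φ _
      rw [prod_mul_distrib]
    rw [sum_congr rfl e1, sum_comm, mul_sum]
    apply sum_congr rfl
    intro φ _
    rw [← sum_mul, sgn_avg]
    split_ifs <;> ring
  rw [sum_congr rfl h1, ← mul_sum, mul_comm (S.card : ℝ), mul_div_mul_left _ _ h2n.ne', ← sub_div, abs_div, Nat.abs_cast]
  apply div_le_div_of_nonneg_right _ (Nat.cast_nonneg _)
  have h2 : ∑ x ∈ S, (∑ i, m x i) ^ k - ∑ x ∈ S, ∑ φ : Fin k → Fin n, (if Od φ then 0 else ∏ j, m x (φ j)) =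
      ∑ φ : Fin k → Fin n, (if Od φ then ∑ x ∈ S, ∏ j, m x (φ j) else 0) := by
    rw [← sum_sub_distrib]
    have e1 : ∀ x ∈ S, (∑ i, m x i) ^ k - ∑ φ : Fin k → Fin n, (if Od φ then 0 else ∏ j, m x (φ j)) =
        ∑ φ : Fin k → Fin n, (if Od φ then ∏ j, m x (φ j) else 0) := by
      intro x _
      rw [Fintype.sum_pow, ← sum_sub_distrib]
      apply sum_congr rfl
      intro φ _
      split_ifs <;> ring
    rw [sum_congr rfl e1, sum_comm]
    apply sum_congr rfl
    intro φ _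
    split_ifs
    · rfl
    · exact sum_const_zero
  rw [h2]
  refine (abs_sum_le_sum_abs _ _).trans (sum_le_sum fun φ _ => ?_)
  split_ifs
  · exact le_rfl
  · rw [abs_zero]

end Pool.Agent.N699.GL
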