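import Pool.Agent.N699.GL.Asm

set_option autoImplicit false

/-! The normal law for almost all vectors of shifts. -/

namespace Pool.Agent.N699.GL

open Finset MeasureTheory
open Pool.Agent.H373R2.T7
open Pool.Agent.N699.RP
open Pool.Agent.N699.GC
open Pool.Agent.W93.TD (avg_w total_w)
open Pool.Agent.N916.ND (law law_apply law_prob law_charFun)
open Pool.Agent.N786.E (Phi cdf_close)

variable {n : ℕ}

lemma Q1_nonneg (N K : ℕ) (v : Fin n → ℕ) : 0 ≤ Q1 n N K v := by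
  classical
  unfold Q1
  refine sum_nonneg fun k _ => div_nonneg (sum_nonneg fun φ _ => ?_) (Nat.cast_nonneg _)
  by_cases h : Od φ
  · rw [if_pos h]; exact abs_nonneg _
  · rw [if_neg h]

lemma Q2_nonneg (N : ℕ) (v : Fin n → ℕ) : 0 ≤ Q2 n N v := div_nonneg (sum_nonneg fun _ _ => abs_nonneg _) (Nat.cast_nonneg _)

lemma Q1_mean (N K : ℕ) (hN : 1 ≤ N) (Ω : Fin n → Finset ℕ) (p : Fin n → ℕ → ℝ) (hp : ∀ i, ∀ u ∈ Ω i, 0 ≤ p i u)
    (hp1 : ∀ i, ∑ u ∈ Ω i, p i u = 1) (β : ℝ) (hβ : 0 ≤ β) (T : ℝ) (hT : 1 ≤ T) (hnT : (n : ℝ) ≤ T)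
    (hone : ∀ i, ∀ G : ℕ → ℝ, (∀ x, |G x| ≤ 1) → ∑ u ∈ Ω i, p i u * |∑ x ∈ Icc 1 N, G x * mu (x + u)| ≤ N * β) :
    ∑ v ∈ Fintype.piFinset Ω, (∏ i, p i (v i)) * Q1 n N K v ≤ (2 * K + 1) * (T ^ (2 * K) * β) := by
  classical
  have hN0 : (0 : ℝ) < N := by exact_mod_cast hN
  unfold Q1
  have h1 : ∑ v ∈ Fintype.piFinset Ω, (∏ i, p i (v i)) * ∑ k ∈ range (2 * K + 1),
      (∑ φ : Fin k → Fin n, (if Od φ then |∑ x ∈ Icc 1 N, ∏ j, mu (x + v (φ j))| else 0)) / N =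
      ∑ k ∈ range (2 * K + 1), (∑ φ : Fin k → Fin n, (if Od φ then
        ∑ v ∈ Fintype.piFinset Ω, (∏ i, p i (v i)) * |∑ x ∈ Icc 1 N, ∏ j, mu (x + v (φ j))| else 0)) / N := by
    simp only [mul_sum]
    rw [sum_comm]
    apply sum_congr rfl
    intro k _
    rw [sum_div]
    have e1 : ∀ v ∈ Fintype.piFinset Ω, (∏ i, p i (v i)) * ((∑ φ : Fin k → Fin n, (if Od φ then |∑ x ∈ Icc 1 N, ∏ j, mu (x + v (φ j))| else 0)) / N) =
        ∑ φ : Fin k → Fin n, (∏ i, p i (v i)) * (if Od φ then |∑ x ∈ Icc 1 N, ∏ j, mu (x + v (φ j))| else 0) / N := by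
      intro v _
      rw [sum_div, mul_sum]
      apply sum_congr rfl
      intro φ _
      ring
    rw [sum_congr rfl e1, sum_comm]
    apply sum_congr rfl
    intro φ _
    rw [← sum_div]
    congr 1
    by_cases h : Od φ
    · simp only [if_pos h]
    · simp only [if_neg h, mul_zero, sum_const_zero]
  rw [h1]
  have h2 : ∀ k ∈ range (2 * K + 1), (∑ φ : Fin k → Fin n, (if Od φ then
        ∑ v ∈ Fintype.piFinset Ω, (∏ i, p i (v i)) * |∑ x ∈ Icc 1 N, ∏ j, mu (x + v (φ j))| else 0)) / N ≤ T ^ (2 * K) * β := by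
    intro k hk
    rw [mem_range] at hk
    rw [div_le_iff₀ hN0]
    have e1 : ∀ φ ∈ (univ : Finset (Fin k → Fin n)), (if Od φ then
        ∑ v ∈ Fintype.piFinset Ω, (∏ i, p i (v i)) * |∑ x ∈ Icc 1 N, ∏ j, mu (x + v (φ j))| else 0) ≤ N * β := by
      intro φ _
      by_cases h : Od φ
      · rw [if_pos h]
        exact odd_corr N Ω p hp hp1 (N * β) hone φ h
      · rw [if_neg h]
        positivity
    refine (sum_le_sum e1).trans ?_
    rw [sum_const, nsmul_eq_mul, card_univ, Fintype.card_fun, Fintype.card_fin, Fintype.card_fin]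
    push_cast
    have e2 : (n : ℝ) ^ k ≤ T ^ (2 * K) :=
      (pow_le_pow_left₀ (Nat.cast_nonneg _) hnT k).trans (pow_le_pow_right₀ hT (by omega))
    calc (n : ℝ) ^ k * (N * β) ≤ T ^ (2 * K) * (N * β) := mul_le_mul_of_nonneg_right e2 (by positivity)
      _ = _ := by ring
  refine (sum_le_sum h2).trans (le_of_eq ?_)
  rw [sum_const, nsmul_eq_mul, card_range]
  push_cast
  ring

/-- the distribution function from the characteristic functions -/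
lemma close_of_char (t ε Ξ δ : ℝ) (hcdf : ∀ ν : Measure ℝ, IsProbabilityMeasure ν →
      (∀ ξ : ℝ, |ξ| ≤ Ξ → ‖charFun ν ξ - Complex.exp (-((ξ : ℂ) ^ 2 / 2))‖ ≤ δ) →
      |ν.real (Set.Iic t) - Phi t| ≤ ε) (N : ℕ) (hN : 1 ≤ N) (hn : 1 ≤ n) (v : Fin n → ℕ)
    (h : ∀ ξ : ℝ, |ξ| ≤ Ξ → ‖avC (Icc 1 N) (fun x => Complex.exp (((ξ / nrm n * ∑ i, mu (x + v i) : ℝ) : ℂ) * Complex.I)) -
      ((Real.exp (-(ξ ^ 2 / 2)) : ℝ) : ℂ)‖ ≤ δ) :
    |(((Icc 1 N).filter fun x => (∑ i, mu (x + v i)) ≤ t * nrm n).card : ℝ) / N - Phi t| ≤ ε := by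
  classical
  have hn0 : (0 : ℝ) < n := by exact_mod_cast hn
  have hs0 : 0 < nrm n := by
    unfold nrm
    exact Real.sqrt_pos.2 (by positivity)
  have hne : (Icc 1 N).Nonempty := ⟨1, by rw [mem_Icc]; omega⟩
  have h1 := hcdf (law (Icc 1 N) (fun x => (∑ i, mu (x + v i)) / nrm n)) (law_prob hne _) (by
    intro ξ hξ
    rw [law_charFun]
    refine le_trans (le_of_eq ?_) (h ξ hξ)
    congr 1
    have e1 : (∑ S ∈ Icc 1 N, Complex.exp ((ξ : ℂ) * (((∑ i, mu (S + v i)) / nrm n : ℝ) : ℂ) * Complex.I)) / ((Icc 1 N).card : ℂ) =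
        avC (Icc 1 N) (fun x => Complex.exp (((ξ / nrm n * ∑ i, mu (x + v i) : ℝ) : ℂ) * Complex.I)) := by
      unfold avC
      congr 1
      apply sum_congr rfl
      intro x _
      congr 2
      push_cast
      ring
    rw [e1]
    congr 1
    push_cast
    rfl)
  have h2 : (law (Icc 1 N) (fun x => (∑ i, mu (x + v i)) / nrm n)).real (Set.Iic t) =
      (((Icc 1 N).filter fun x => (∑ i, mu (x + v i)) ≤ t * nrm n).card : ℝ) / N := by
    unfold Measure.real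
    rw [law_apply _ _ _ measurableSet_Iic, ENNReal.toReal_mul, ENNReal.toReal_inv, ENNReal.toReal_natCast, Nat.card_Icc,
      Nat.add_sub_cancel, ENNReal.toReal_sum]
    · have e1 : ∀ x ∈ Icc 1 N, ((Set.Iic t).indicator (1 : ℝ → ENNReal) ((∑ i, mu (x + v i)) / nrm n)).toReal =
          if (∑ i, mu (x + v i)) ≤ t * nrm n then 1 else 0 := by
        intro x _
        by_cases h3 : (∑ i, mu (x + v i)) ≤ t * nrm n
        · rw [if_pos h3, Set.indicator_of_mem (by rw [Set.mem_Iic, div_le_iff₀ hs0]; exact h3)]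
          simp
        · rw [if_neg h3, Set.indicator_of_notMem (by rw [Set.mem_Iic, div_le_iff₀ hs0]; exact h3)]
          simp
      rw [sum_congr rfl e1, ← sum_filter, sum_const, nsmul_eq_mul, mul_one, div_eq_inv_mul]
    · intro x _
      by_cases h3 : (∑ i, mu (x + v i)) / nrm n ∈ Set.Iic t
      · rw [Set.indicator_of_mem h3]; simp
      · rw [Set.indicator_of_notMem h3]; simp
  rw [h2] at h1
  exact h1

open Classical in
/-- the normal law for almost all vectors of shifts -/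
theorem gauss_law (A B : ℕ) (hB : 1 ≤ B) (t ε : ℝ) (hε : 0 < ε) : ∃ W : ℕ, ∀ E : ℕ, ∃ n₀ N₀ : ℕ, ∀ N, N₀ ≤ N → ∀ n : ℕ, n₀ ≤ n →
    (n : ℝ) ≤ Real.log N ^ A → ∀ (Ω : Fin n → Finset ℕ) (p : Fin n → ℕ → ℝ), (∀ i, Lz B E W N (Ω i) (p i)) →
    ∑ v ∈ Fintype.piFinset Ω, (if |(((Icc 1 N).filter fun x => (∑ i, mu (x + v i)) ≤ t * nrm n).card : ℝ) / N - Phi t| ≤ ε
      then 0 else ∏ i, p i (v i)) ≤ ε := by
  obtain ⟨Ξ, δ, hΞ, hδ, hcdf⟩ := cdf_close t ε hε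
  obtain ⟨C0, hC0⟩ : ∃ C0, C0 = Real.exp (Ξ ^ 2 * Real.pi ^ 2 / 3) := ⟨_, rfl⟩
  have hC0p : 0 < C0 := by rw [hC0]; exact Real.exp_pos _
  obtain ⟨K, hK⟩ : ∃ K : ℕ, (1 / 4 : ℝ) ^ K < δ / (16 * C0) := exists_pow_lt_of_lt_one (by positivity) (by norm_num)
  have hKt : 4 * (1 / 4) ^ K * C0 ≤ δ / 4 := by
    rw [lt_div_iff₀ (by positivity)] at hK
    linarith
  obtain ⟨V, hV⟩ : ∃ V, V = 2 * K * A + 1 := ⟨_, rfl⟩
  refine ⟨2 * V + 5, fun E => ?_⟩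
  obtain ⟨n1, h1⟩ := one_corr B E V hB
  obtain ⟨n2, h2⟩ := sq_avg B E
  obtain ⟨n3, h3⟩ := ev_L' ((2 * K + 1 + Ξ ^ 2) * 4 / (δ * ε) + 1)
  obtain ⟨n₀, hn₀⟩ := exists_nat_ge ((4 * Ξ ^ 2 / (δ * ε)) ^ 2 + 12 * Ξ ^ 4 / δ + 2 * Ξ ^ 2 + 1)
  refine ⟨n₀, n1 + n2 + n3 + 3, fun N hN n hn hnA Ω p hlaw => ?_⟩
  have hN1 : 1 ≤ N := by omega
  have hN0 : (0 : ℝ) < N := by exact_mod_cast hN1
  have a3 := h3 N (by omega)
  obtain ⟨L, hLd⟩ : ∃ L, L = Real.log (N : ℝ) := ⟨_, rfl⟩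
  have hq0 : 0 ≤ (2 * (K : ℝ) + 1 + Ξ ^ 2) * 4 / (δ * ε) := by positivity
  have hlog1 : 1 ≤ Real.log (N : ℝ) := by linarith
  have hL1 : 1 ≤ L := by rw [hLd]; exact hlog1
  have hL0 : 0 < L := by linarith
  have hLq : (2 * (K : ℝ) + 1 + Ξ ^ 2) * 4 / (δ * ε) ≤ L := by rw [hLd]; linarith
  have hnr : (4 * Ξ ^ 2 / (δ * ε)) ^ 2 + 12 * Ξ ^ 4 / δ + 2 * Ξ ^ 2 + 1 ≤ n := hn₀.trans (by exact_mod_cast hn)
  have hp1' : 0 ≤ (4 * Ξ ^ 2 / (δ * ε)) ^ 2 := sq_nonneg _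
  have hp2' : 0 ≤ 12 * Ξ ^ 4 / δ := by positivity
  have hp3' : 0 ≤ 2 * Ξ ^ 2 := by positivity
  have hn1r : (1 : ℝ) ≤ n := by linarith
  have hn1 : 1 ≤ n := by exact_mod_cast hn1r
  have hn0 : (0 : ℝ) < n := by linarith
  have hs : Ξ ≤ nrm n := by
    unfold nrm
    apply Real.le_sqrt_of_sq_le
    have := c_bounds.1
    nlinarith
  have hsn : 4 * Ξ ^ 2 / (δ * ε) ≤ Real.sqrt n := by
    apply Real.le_sqrt_of_sq_le
    linarith
  have hsn0 : 0 < Real.sqrt n := Real.sqrt_pos.2 hn0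
  have h3n : 3 * Ξ ^ 4 / n ≤ δ / 4 := by
    rw [div_le_div_iff₀ hn0 (by norm_num)]
    have : 12 * Ξ ^ 4 / δ ≤ n := by linarith
    rw [div_le_iff₀ hδ] at this
    linarith
  have hp : ∀ i, ∀ u ∈ Ω i, 0 ≤ p i u := fun i => (hlaw i).1
  have hpp1 : ∀ i, ∑ u ∈ Ω i, p i u = 1 := fun i => (hlaw i).2.1
  have hE1 := Q1_mean N K hN1 Ω p hp hpp1 (1 / L ^ V) (by positivity) (L ^ A) (one_le_pow₀ hL1) (by rw [hLd]; exact hnA) (by
    intro i G hG
    have e1 := h1 N (by omega) (Ω i) (p i) (lz_mono B E (2 * V + 5) (2 * V + 1) N (by omega) hlog1 _ _ (hlaw i)) G hG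
    rw [← hLd] at e1
    rw [mul_one_div]
    exact e1)
  have hE2 := lln N hN1 hn1 Ω p hp hpp1 (6 / Real.pi ^ 2) (1 / L) (by
    intro i
    have e1 := h2 N (by omega) (Ω i) (p i) (lz_mono B E (2 * V + 5) 4 N (by omega) hlog1 _ _ (hlaw i))
    rw [← hLd] at e1
    exact e1)
  have hE1' : ∑ v ∈ Fintype.piFinset Ω, (∏ i, p i (v i)) * Q1 n N K v ≤ (2 * K + 1) / L := by
    refine hE1.trans (le_of_eq ?_)
    rw [hV, ← pow_mul, show A * (2 * K) = 2 * K * A by ring, pow_succ]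
    field_simp
  obtain ⟨Bad, hBad⟩ : ∃ Bad : (Fin n → ℕ) → Prop, Bad = fun v => δ / 2 < Q1 n N K v + Ξ ^ 2 * Q2 n N v := ⟨_, rfl⟩
  have hgood : ∀ v, ¬ Bad v → |(((Icc 1 N).filter fun x => (∑ i, mu (x + v i)) ≤ t * nrm n).card : ℝ) / N - Phi t| ≤ ε := by
    intro v hv
    rw [hBad] at hv
    simp only [not_lt] at hv
    apply close_of_char t ε Ξ δ hcdf N hN1 hn1 v
    intro ξ hξ
    have e1 := char_close n N K hn1 hN1 v Ξ hΞ hs ξ hξ
    rw [← hC0] at e1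
    linarith
  have hfin : ∑ v ∈ Fintype.piFinset Ω, (if |(((Icc 1 N).filter fun x => (∑ i, mu (x + v i)) ≤ t * nrm n).card : ℝ) / N - Phi t| ≤ ε
      then 0 else ∏ i, p i (v i)) ≤ ∑ v ∈ Fintype.piFinset Ω, (2 / δ) * ((∏ i, p i (v i)) * Q1 n N K v + Ξ ^ 2 * ((∏ i, p i (v i)) * Q2 n N v)) := by
    apply sum_le_sum
    intro v hv
    have hP0 : 0 ≤ ∏ i, p i (v i) := prod_nonneg fun j _ => hp j _ (Fintype.mem_piFinset.1 hv j)
    have q1 := Q1_nonneg N K v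
    have q2 := Q2_nonneg N v
    have q3 : 0 ≤ (∏ i, p i (v i)) * Q1 n N K v + Ξ ^ 2 * ((∏ i, p i (v i)) * Q2 n N v) := by positivity
    by_cases hb : |(((Icc 1 N).filter fun x => (∑ i, mu (x + v i)) ≤ t * nrm n).card : ℝ) / N - Phi t| ≤ ε
    · rw [if_pos hb]
      positivity
    · rw [if_neg hb]
      have hbad : Bad v := by
        by_contra hcon
        exact hb (hgood v hcon)
      rw [hBad] at hbad
      have e1 : 1 ≤ (2 / δ) * (Q1 n N K v + Ξ ^ 2 * Q2 n N v) := by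
        rw [div_mul_eq_mul_div, le_div_iff₀ hδ]
        linarith
      calc ∏ i, p i (v i) = (∏ i, p i (v i)) * 1 := (mul_one _).symm
        _ ≤ (∏ i, p i (v i)) * ((2 / δ) * (Q1 n N K v + Ξ ^ 2 * Q2 n N v)) := mul_le_mul_of_nonneg_left e1 hP0
        _ = _ := by ring
  refine hfin.trans ?_
  rw [← mul_sum, sum_add_distrib, ← mul_sum]
  have hE2' : ∑ v ∈ Fintype.piFinset Ω, (∏ i, p i (v i)) * Q2 n N v ≤ 1 / Real.sqrt n + 1 / L := hE2
  have e1 : Ξ ^ 2 * ∑ v ∈ Fintype.piFinset Ω, (∏ i, p i (v i)) * Q2 n N v ≤ Ξ ^ 2 * (1 / Real.sqrt n + 1 / L) :=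
    mul_le_mul_of_nonneg_left hE2' (by positivity)
  calc 2 / δ * (∑ v ∈ Fintype.piFinset Ω, (∏ i, p i (v i)) * Q1 n N K v + Ξ ^ 2 * ∑ v ∈ Fintype.piFinset Ω, (∏ i, p i (v i)) * Q2 n N v) ≤
        2 / δ * ((2 * K + 1) / L + Ξ ^ 2 * (1 / Real.sqrt n + 1 / L)) := by
        apply mul_le_mul_of_nonneg_left _ (by positivity)
        linarith
    _ = 2 / δ * ((2 * K + 1 + Ξ ^ 2) / L) + 2 / δ * (Ξ ^ 2 / Real.sqrt n) := by
        field_simp
        ring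
    _ ≤ ε / 2 + ε / 2 := by
        apply add_le_add
        · rw [div_mul_div_comm, div_le_div_iff₀ (by positivity) (by norm_num)]
          rw [div_le_iff₀ (by positivity)] at hLq
          nlinarith
        · rw [div_mul_div_comm, div_le_div_iff₀ (by positivity) (by norm_num)]
          rw [div_le_iff₀ (by positivity)] at hsn
          nlinarith
    _ = ε := by ring

end Pool.Agent.N699.GL
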